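import Mathlib
import Pool.Agent.Q43.LC.AmpB

set_option autoImplicit false

/-!
# `⌊β b^(2^n)⌋ + c`: amplitudes for which all large terms of a sparse set of indices are prime
-/

namespace Pool.Agent.Results.MP_37e5fa_nt.AmplitudesWithAllPrimes

/-- There is an absolute constant `g` with the following property.  Let `b > 1` be a real number, `c`
a natural number and `T` a set of natural numbers such that two different large elements of `T` have
distance at least `g`.  Then in every interval of amplitudes the set of the `β` for which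
`⌊β b^(2^n)⌋ + c` is prime for ALL large `n ∈ T` has Hausdorff dimension one.
(`b = 2`, `c = 1`, `β = 1` gives the Fermat numbers.) -/
theorem result : ∃ g : ℕ, ∀ (b : ℝ) (c : ℕ), 1 < b → ∀ T : Set ℕ,
    (∃ N : ℕ, ∀ m ∈ T, ∀ n ∈ T, N ≤ m → m < n → m + g ≤ n) →
    ∀ s t : ℝ, 0 < s → s < t →
      dimH {β : ℝ | s < β ∧ β < t ∧ ∃ M : ℕ, ∀ n ∈ T, M ≤ n → (⌊β * b ^ (2 ^ n)⌋₊ + c).Prime} = 1 := by
  obtain ⟨C, _, h⟩ := Pool.Agent.Q43.LC.ampB
  refine ⟨C, fun b c hb T hT s t hs hst => ?_⟩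
  obtain ⟨N, hN⟩ := hT
  set S : Set ℕ := {m | ∃ n ∈ T, N ≤ n ∧ m = 2 ^ n} with hS
  have hlac : Pool.Agent.Q43.LC.Lac C S := by
    rintro m ⟨k, hk, hk2, rfl⟩ n ⟨l, hl, hl2, rfl⟩ hmn
    have h1 : k < l := (Nat.pow_lt_pow_iff_right (by norm_num)).1 hmn
    have h2 := hN k hk l hl hk2 h1
    calc C * 2 ^ k ≤ 2 ^ C * 2 ^ k := Nat.mul_le_mul_right _ Nat.lt_two_pow_self.le
      _ = 2 ^ (k + C) := by rw [pow_add, mul_comm]
      _ ≤ _ := Nat.pow_le_pow_right (by norm_num) h2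
  refine le_antisymm (Pool.Agent.Q43.LC.dimH_le_one _) ?_
  rw [← h b c hb S hlac s t hs hst]
  refine dimH_mono ?_
  rintro β ⟨h1, h2, M, hM⟩
  refine ⟨h1, h2, M + N, fun n hn hk => ?_⟩
  refine hM _ ⟨n, hn, by omega, rfl⟩ ?_
  have h3 : n < 2 ^ n := Nat.lt_two_pow_self
  omega

end Pool.Agent.Results.MP_37e5fa_nt.AmplitudesWithAllPrimes
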