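import Pool.Agent.Y875.FP.Conv

/-!
# Primality of `F_m` in the bases composed of prime factors of a smaller Fermat number, at the
full level

Let `j + 2 ≤ m`, let `b ≥ 1` be an integer all of whose prime factors divide `F_j`, and let
`r = m - j`.  Then `2^(r+1)` divides `b^(2^(r-1)) - 1`; put `y = (b^(2^(r-1)) - 1) / 2^(r+1)`.  If
`F_m` is prime then

  `b^((F_m - 1) / 2^(r+1)) * 2^(2^j y) = 1  (mod F_m)`,

which gives the `2^(r+1)`-th power residue symbol of `b` modulo `F_m` in closed form, and if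
`2^(r+4)` does not divide `b^2 - 1` the congruence is equivalent to the primality of `F_m`.
For `j = 0`, `b = 3` this is a refinement of the test of Pepin at the level `2^(m+1)`, the order
of `2` modulo `F_m`; for `j ≥ 5` it applies to the (unknown or known) prime factors of `F_j`.
-/

set_option autoImplicit false

namespace Pool.Agent.Results.MP_37e5fa_nt.FermatFactorBases

/-- the `2`-adic valuation of `b^(2^(l+1)) - 1` is that of `b^2 - 1` plus `l` -/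
theorem dvd_iff {b : ℕ} (hb : Odd b) (s : ℕ) (hs : 1 ≤ s) (l : ℕ) :
    2 ^ (s + l) ∣ b ^ (2 ^ (l + 1)) - 1 ↔ 2 ^ s ∣ b ^ 2 - 1 := by
  induction l with
  | zero => simp
  | succ l ih =>
    rw [← ih]
    have hb1 : 1 ≤ b := hb.pos
    have h1 : 1 ≤ b ^ (2 ^ (l + 1)) := Nat.one_le_pow _ _ hb1
    have hfac : b ^ (2 ^ (l + 1 + 1)) - 1 = (b ^ (2 ^ (l + 1)) - 1) * (b ^ (2 ^ (l + 1)) + 1) := by
      rw [pow_succ 2 (l + 1), pow_mul]
      obtain ⟨c, hc⟩ : ∃ c, b ^ (2 ^ (l + 1)) = c + 1 := ⟨b ^ (2 ^ (l + 1)) - 1, by omega⟩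
      rw [hc, Nat.add_sub_cancel]
      apply Nat.sub_eq_of_eq_add
      ring
    obtain ⟨w, hw⟩ : ∃ w, b ^ (2 ^ (l + 1)) + 1 = 2 * (2 * w + 1) := by
      obtain ⟨r, hr⟩ := hb
      have h2 : b ^ (2 ^ (l + 1)) = (b ^ (2 ^ l)) ^ 2 := by rw [pow_succ, pow_mul]
      have h3 : Odd (b ^ (2 ^ l)) := Odd.pow ⟨r, hr⟩
      obtain ⟨t, ht⟩ := h3
      refine ⟨t * (t + 1), ?_⟩
      rw [h2, ht]; ring
    rw [hfac, hw, show s + (l + 1) = (s + l) + 1 by ring, pow_succ]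
    have hcop : Nat.Coprime (2 ^ (s + l)) (2 * w + 1) :=
      Nat.Coprime.pow_left _ (Nat.coprime_two_left.mpr ⟨w, by ring⟩)
    constructor
    · intro h
      have h4 : 2 ^ (s + l) * 2 ∣ ((b ^ (2 ^ (l + 1)) - 1) * (2 * w + 1)) * 2 := by
        have e : ((b ^ (2 ^ (l + 1)) - 1) * (2 * w + 1)) * 2 =
            (b ^ (2 ^ (l + 1)) - 1) * (2 * (2 * w + 1)) := by ring
        rw [e]; exact h
      exact hcop.dvd_of_dvd_mul_right (Nat.dvd_of_mul_dvd_mul_right (by norm_num) h4)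
    · rintro ⟨c, hc⟩
      exact ⟨c * (2 * w + 1), by rw [hc]; ring⟩

theorem odd_of_factors {j b : ℕ} (hb0 : b ≠ 0)
    (hb : ∀ q : ℕ, q.Prime → q ∣ b → q ∣ Nat.fermatNumber j) : Odd b := by
  rw [← Nat.not_even_iff_odd]
  intro hev
  have h1 := hb 2 Nat.prime_two (even_iff_two_dvd.mp hev)
  exact (Nat.not_even_iff_odd.mpr (Nat.odd_fermatNumber j)) (even_iff_two_dvd.mpr h1)

theorem exp_eq (m s : ℕ) (hs : s ≤ 2 ^ m) :
    (Nat.fermatNumber m - 1) / 2 ^ s = 2 ^ (2 ^ m - s) := by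
  unfold Nat.fermatNumber
  rw [Nat.add_sub_cancel, Nat.pow_div hs (by norm_num)]

theorem le_two_pow (m r : ℕ) (hr : r ≤ m) : r + 1 ≤ 2 ^ m := by
  have : m < 2 ^ m := Nat.lt_two_pow_self
  omega

theorem main (m j b : ℕ) (hjm : j + 2 ≤ m) (hb0 : b ≠ 0)
    (hb : ∀ q : ℕ, q.Prime → q ∣ b → q ∣ Nat.fermatNumber j) :
    2 ^ (m - j + 1) ∣ b ^ (2 ^ (m - j - 1)) - 1 ∧
    ((Nat.fermatNumber m).Prime →
      (b : ZMod (Nat.fermatNumber m)) ^ ((Nat.fermatNumber m - 1) / 2 ^ (m - j + 1)) *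
        2 ^ (2 ^ j * ((b ^ (2 ^ (m - j - 1)) - 1) / 2 ^ (m - j + 1))) = 1) ∧
    (¬ 2 ^ (m - j + 4) ∣ b ^ 2 - 1 →
      ((Nat.fermatNumber m).Prime ↔
        (b : ZMod (Nat.fermatNumber m)) ^ ((Nat.fermatNumber m - 1) / 2 ^ (m - j + 1)) *
          2 ^ (2 ^ j * ((b ^ (2 ^ (m - j - 1)) - 1) / 2 ^ (m - j + 1))) = 1)) := by
  obtain ⟨r, rfl⟩ : ∃ r, m = j + r := ⟨m - j, by omega⟩
  have hr : 2 ≤ r := by omega
  have hbo := odd_of_factors hb0 hb
  rw [Nat.add_sub_cancel_left, exp_eq _ _ (le_two_pow (j + r) r (by omega))]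
  obtain ⟨c, rfl⟩ : ∃ c, r = c + 2 := ⟨r - 2, by omega⟩
  have e4 : c + 2 - 1 = c + 1 := by omega
  refine ⟨?_, ?_, ?_⟩
  · rw [e4, show c + 2 + 1 = 3 + c by ring, dvd_iff hbo 3 (by norm_num)]
    obtain ⟨t, ht⟩ := hbo
    obtain ⟨s, hs⟩ := Nat.even_mul_succ_self t
    refine ⟨s, ?_⟩
    have h1 : b ^ 2 = 1 + 4 * (t * (t + 1)) := by rw [ht]; ring
    rw [h1, hs, Nat.add_sub_cancel_left]
    ring
  · intro hF
    obtain ⟨y, hy1, hy2⟩ := Pool.Agent.Y875.FP.fermat_law hr hF hb hb0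
    have h3 : (b ^ (2 ^ (c + 2 - 1)) - 1) / 2 ^ (c + 2 + 1) = y := by
      rw [hy1, Nat.add_sub_cancel_left, Nat.mul_div_cancel_left _ (by positivity)]
    rw [h3]
    exact hy2
  · intro h4
    apply Pool.Agent.Y875.FP.criterion j (c + 2) b hr hb
    rw [e4, show 2 * (c + 2 + 1) = (c + 6) + c by ring, dvd_iff hbo (c + 6) (by omega)]
    exact h4

theorem result :
    (∀ m j b : ℕ, j + 2 ≤ m → b ≠ 0 →
      (∀ q : ℕ, q.Prime → q ∣ b → q ∣ Nat.fermatNumber j) →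
      2 ^ (m - j + 1) ∣ b ^ (2 ^ (m - j - 1)) - 1 ∧
      ((Nat.fermatNumber m).Prime →
        (b : ZMod (Nat.fermatNumber m)) ^ ((Nat.fermatNumber m - 1) / 2 ^ (m - j + 1)) *
          2 ^ (2 ^ j * ((b ^ (2 ^ (m - j - 1)) - 1) / 2 ^ (m - j + 1))) = 1) ∧
      (¬ 2 ^ (m - j + 4) ∣ b ^ 2 - 1 →
        ((Nat.fermatNumber m).Prime ↔
          (b : ZMod (Nat.fermatNumber m)) ^ ((Nat.fermatNumber m - 1) / 2 ^ (m - j + 1)) *
            2 ^ (2 ^ j * ((b ^ (2 ^ (m - j - 1)) - 1) / 2 ^ (m - j + 1))) = 1))) ∧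
    (∀ m : ℕ, 2 ≤ m →
      ((Nat.fermatNumber m).Prime ↔
        (3 : ZMod (Nat.fermatNumber m)) ^ ((Nat.fermatNumber m - 1) / 2 ^ (m + 1)) *
          2 ^ ((3 ^ (2 ^ (m - 1)) - 1) / 2 ^ (m + 1)) = 1)) := by
  refine ⟨fun m j b h1 h2 h3 => main m j b h1 h2 h3, fun m hm => ?_⟩
  have h := (main m 0 3 (by omega) (by norm_num) (by
    intro q hq h3
    rw [Nat.fermatNumber_zero]
    exact h3)).2.2 (by
      intro h
      have h5 := Nat.le_of_dvd (by norm_num) h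
      have h6 : 2 ^ 4 ≤ 2 ^ (m - 0 + 4) := Nat.pow_le_pow_right (by norm_num) (by omega)
      norm_num at h5 h6
      omega)
  rw [Nat.sub_zero, pow_zero, one_mul] at h
  exact_mod_cast h

end Pool.Agent.Results.MP_37e5fa_nt.FermatFactorBases
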