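import Pool.Agent.Q21.FA.Law

/-!
# Fermat numbers and generalised Fermat numbers with almost all real amplitudes

Let `b > 1` be a FIXED real number, for example `b = 2`. For a real amplitude `x > 0` let `W b x n` be the part
composed of primes larger than `2 ^ (n + 1)` of the smallest integer above `x * b ^ (2 ^ n)`. For `x = 1` and an even
integer `b` this is the generalised Fermat number `b ^ (2 ^ n) + 1` (for `b = 2` the Fermat number `F_n`), because its
prime factors are `1` modulo `2 ^ (n + 1)`.

For every base `b` the measure of the set of the amplitudes with `W b x n` prime has the size predicted by the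
heuristic argument for the Fermat numbers to the base `b`, the events for different `n` are quasi-independent, the
measure of the set of the amplitudes with a prime `W b x n` for some `n ≥ N` is twice as large as for `n = N` alone,
for almost all amplitudes only finitely many `W b x n` are primes, but the amplitudes with infinitely many primes form
a residual set.
-/

set_option autoImplicit false

namespace Pool.Agent.Results.MP_37e5fa_nt.FixedBaseAmplitudes

open Filter Topology MeasureTheory

/-- The product, with multiplicity, of the prime factors of `m` that are larger than `p`. -/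
def roughPart (p m : ℕ) : ℕ := (m.primeFactorsList.filter (fun r => p < r)).prod

/-- The part composed of primes larger than `2 ^ (n + 1)` of the smallest integer above `x * b ^ (2 ^ n)`. -/
noncomputable def W (b x : ℝ) (n : ℕ) : ℕ := roughPart (2 ^ (n + 1)) (⌊x * b ^ (2 ^ n)⌋₊ + 1)

/-- (0) For even integers `b` the number `W b 1 n` is `b ^ (2 ^ n) + 1`. For every real `b > 1`: (1) for almost every
`x > 0` only finitely many `W b x n` are primes; (2) in the sense of Baire category, for most `x > 0` infinitely many
`W b x n` are primes. For every interval `(s, t)` with `0 < s < t`: (3) the measure of the set of the `x` with `W b x n`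
prime is `~ e ^ γ (log 2 / log b) (t - s) n / 2 ^ n`; (4) the measure of the set of the `x` with `W b x n` prime for
some `n ≥ N` is twice as large (with `N` for `n`); (5) the measure of the set of the `x` with `W b x n` and `W b x m`
prime is at most a constant times the product of the two sizes. -/
theorem result :
    (∀ b : ℕ, Even b → ∀ n : ℕ, W b 1 n = b ^ (2 ^ n) + 1) ∧
    ∀ b : ℝ, 1 < b →
      (∀ᵐ x : ℝ, 0 < x → {n : ℕ | (W b x n).Prime}.Finite) ∧
      {x : ℝ | 0 < x → {n : ℕ | (W b x n).Prime}.Infinite} ∈ residual ℝ ∧
      ∀ s t : ℝ, 0 < s → s < t →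
        Tendsto (fun n : ℕ => volume.real {x | x ∈ Set.Ioo s t ∧ (W b x n).Prime} * (2 ^ n / n)) atTop
          (𝓝 (Real.exp Real.eulerMascheroniConstant * Real.log 2 / Real.log b * (t - s))) ∧
        Tendsto (fun N : ℕ => volume.real {x | x ∈ Set.Ioo s t ∧ ∃ n : ℕ, N ≤ n ∧ (W b x n).Prime} *
          (2 ^ N / N)) atTop
          (𝓝 (2 * (Real.exp Real.eulerMascheroniConstant * Real.log 2 / Real.log b * (t - s)))) ∧
        ∃ (K : ℝ) (n₀ : ℕ), ∀ n m : ℕ, n₀ ≤ n → n < m →
          volume.real {x | x ∈ Set.Ioo s t ∧ (W b x n).Prime ∧ (W b x m).Prime} ≤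
            K * ((n / 2 ^ n) * (m / 2 ^ m)) :=
  ⟨fun _ hb n => Pool.Agent.Q21.FA.even_base hb n, fun _ hb => ⟨Pool.Agent.Q21.FA.finite_ae hb,
    Pool.Agent.Q21.FA.generic hb, fun _ _ hs hst => Pool.Agent.Q21.FA.law hb hs hst⟩⟩

end Pool.Agent.Results.MP_37e5fa_nt.FixedBaseAmplitudes
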