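import Pool.Agent.Q26.FN.Law

/-!
# The probability of a further Fermat prime, for almost all real bases

For a real base `x > 1` let `W A x n` be the part composed of primes larger than `2 ^ (n + 1)` of the integer part of
`A x * (x ^ (2 ^ n) + 1)`, where `A` is a positive `C ^ 2` function with `A 2 = 1`. For `x = 2` this is the Fermat
number `F_n`, because the prime factors of `F_n` are `1` modulo `2 ^ (n + 1)`; for all even integers `b` with `A b = 1`
it is the generalised Fermat number `b ^ (2 ^ n) + 1`.

The first moment (the measure of the set of the bases with `W A x n` prime) has the size predicted by the heuristic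
argument with the factor `e ^ γ log (2 ^ (n + 1))` for the absence of small prime factors, the events for different `n`
are quasi-independent, the measure of the set of the bases with a prime `W A x n` for some `n ≥ N` is
`~ 2 e ^ γ log 2 * N / 2 ^ N * ∫ dx / log x`, and for almost every base only finitely many `W A x n` are primes.
-/

set_option autoImplicit false

namespace Pool.Agent.Results.MP_37e5fa_nt.ProbabilityOfFurtherPrimes

open Filter Topology MeasureTheory

/-- The product, with multiplicity, of the prime factors of `m` that are larger than `p`. -/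
def roughPart (p m : ℕ) : ℕ := (m.primeFactorsList.filter (fun r => p < r)).prod

/-- The part of the integer part of `A x * (x ^ (2 ^ n) + 1)` composed of primes larger than `2 ^ (n + 1)`. -/
noncomputable def W (A : ℝ → ℝ) (x : ℝ) (n : ℕ) : ℕ := roughPart (2 ^ (n + 1)) ⌊A x * (x ^ (2 ^ n) + 1)⌋₊

/-- Let `A` be a positive `C ^ 2` function on `(1, ∞)`. (0) At the even bases `b` with `A b = 1` the number `W A b n` is
`b ^ (2 ^ n) + 1`. (1) For almost every base only finitely many `W A x n` are primes. For every interval `(a, b)`:
(2) the measure of the set of the bases with `W A x n` prime is `~ e ^ γ log 2 * (n / 2 ^ n) * ∫ dx / log x`;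
(3) the measure of the set of the bases with `W A x n` prime for some `n ≥ N` is twice as large (with `N` for `n`);
(4) the measure of the set of the bases with `W A x n` and `W A x m` prime is at most a constant times the product
of the two sizes. -/
theorem result (A : ℝ → ℝ) (hA : ContDiffOn ℝ 2 A (Set.Ioi 1)) (hpos : ∀ x : ℝ, 1 < x → 0 < A x) :
    (∀ b : ℕ, Even b → A b = 1 → ∀ n : ℕ, W A b n = b ^ (2 ^ n) + 1) ∧
    (∀ᵐ x : ℝ, 1 < x → {n : ℕ | (W A x n).Prime}.Finite) ∧
    ∀ a b : ℝ, 1 < a → a < b →
      Tendsto (fun n : ℕ => volume.real {x | x ∈ Set.Ioo a b ∧ (W A x n).Prime} * (2 ^ n / n)) atTop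
        (𝓝 (Real.exp Real.eulerMascheroniConstant * Real.log 2 * ∫ x in a..b, 1 / Real.log x)) ∧
      Tendsto (fun N : ℕ => volume.real {x | x ∈ Set.Ioo a b ∧ ∃ n : ℕ, N ≤ n ∧ (W A x n).Prime} *
        (2 ^ N / N)) atTop
        (𝓝 (2 * (Real.exp Real.eulerMascheroniConstant * Real.log 2 * ∫ x in a..b, 1 / Real.log x))) ∧
      ∃ (K : ℝ) (n₀ : ℕ), ∀ n m : ℕ, n₀ ≤ n → n < m →
        volume.real {x | x ∈ Set.Ioo a b ∧ (W A x n).Prime ∧ (W A x m).Prime} ≤
          K * ((n / 2 ^ n) * (m / 2 ^ m)) :=
  ⟨fun _ hb hAb n => Pool.Agent.Q26.FN.even_base hb hAb n, Pool.Agent.Q26.FN.finite_ae hA hpos,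
    fun _ _ ha hab => Pool.Agent.Q26.FN.law hA hpos ha hab⟩

end Pool.Agent.Results.MP_37e5fa_nt.ProbabilityOfFurtherPrimes
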